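import Pool.Agent.T9h48.NK.TrCore

/-!
# Project NK, slope 1, piece (N1): orbits on the flags of two figures add up
-/

set_option autoImplicit false

open Set
open scoped RealInnerProductSpace

namespace Pool.Agent.T9h22.NK

open Pool.Agent.T9h98.DC Pool.Agent.T9h44.NK Pool.Agent.T9h48.NK

/-- from a map of chains through `v` to a map of the chains of the figure -/
theorem down {d : ℕ} {P : Set (E (d + 1))} {H : Subgroup (E (d + 1) ≃ₗᵢ[ℝ] E (d + 1))}
    {v n : E (d + 1)} {ι : E d →ₗᵢ[ℝ] E (d + 1)} (hn0 : n ≠ 0) (hO : Ort n ι)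
    (hst : ∀ h ∈ H, h v = v → h n = n) (j : ℕ) (Φ Ψ : Ch P (j + 1))
    (Φ' Ψ' : Ch (fig v n ι P) j) (h1 : Φ.face 0 = {v}) (h2 : Ψ.face 0 = {v})
    (h3 : ∀ i : Fin j, fig v n ι (Φ.face i.succ) = Φ'.face i)
    (h4 : ∀ i : Fin j, fig v n ι (Ψ.face i.succ) = Ψ'.face i)
    (h : ∃ h ∈ H, ∀ i, h '' Φ.face i = Ψ.face i) :
    ∃ k ∈ figH H v ι, ∀ i, k '' Φ'.face i = Ψ'.face i := by
  obtain ⟨h, hh, h5⟩ := h
  have hhv : h v = v := by
    have := h5 0
    rw [h1, h2, image_singleton] at this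
    exact singleton_injective this
  obtain ⟨k, hk, hk'⟩ := core1 hn0 hO hst hh hhv
  exact ⟨k, hk, fun i => by rw [← h3, ← h4, ← hk', h5]⟩

/-- **(N1)** if `v` and `w` are not equivalent, `H` has at most `a + b + 1` orbits on the flags of `P`
and more than `a` orbits on the flags through `w`, then it has at most `b` on those through `v` -/
theorem n1 (hSH : S_SH) (d : ℕ) (P : Set (E (d + 1)))
    (H : Subgroup (E (d + 1) ≃ₗᵢ[ℝ] E (d + 1))) (v n w m : E (d + 1))
    (ι κ : E d →ₗᵢ[ℝ] E (d + 1)) (hP : IsPolytope P) (hv : Vx P v) (hsv : Sup P v n)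
    (hn : n ≠ 0) (hO : Ort n ι) (hst : ∀ h ∈ H, h v = v → h n = n) (hw : Vx P w)
    (hsw : Sup P w m) (hm : m ≠ 0) (hOm : Ort m κ) (hstw : ∀ h ∈ H, h w = w → h m = m)
    (hne : ∀ h ∈ H, h v ≠ w) (a b : ℕ) (hFew : Few (a + b + 1) H P)
    (hnot : ¬ Few a (figH H w κ) (fig w m κ P)) : Few b (figH H v ι) (fig v n ι P) := by
  intro Φ'
  unfold Few at hnot
  push Not at hnot
  obtain ⟨Ψ', hΨ'⟩ := hnot
  have shv := (hSH d P v n ι hP hv hsv hn hO d).1
  have shw := (hSH d P w m κ hP hw hsw hm hOm d).1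
  choose Φ h1 h2 using fun i => shv (Φ' i)
  choose Ψ h3 h4 using fun i => shw (Ψ' i)
  let θ : Fin (a + b + 1 + 1) → Ch P (d + 1) := fun i =>
    if h : i.1 < b + 1 then Φ ⟨i.1, h⟩ else Ψ ⟨i.1 - (b + 1), by have := i.2; omega⟩
  obtain ⟨i, j, hij, h, hh, h5⟩ := hFew θ
  have hne' : ∀ h ∈ H, h w ≠ v := fun g hg e => hne g⁻¹ (H.inv_mem hg) (by
    rw [← e]
    exact g.symm_apply_apply w)
  by_cases hi : i.1 < b + 1
  · have ei : θ i = Φ ⟨i.1, hi⟩ := dif_pos hi
    by_cases hj : j.1 < b + 1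
    · have ej : θ j = Φ ⟨j.1, hj⟩ := dif_pos hj
      refine ⟨⟨i.1, hi⟩, ⟨j.1, hj⟩, fun e => hij (Fin.ext (by simpa using e)), ?_⟩
      refine down hn hO hst d _ _ _ _ (h1 _) (h1 _) (h2 _) (h2 _) ⟨h, hh, fun l => ?_⟩
      rw [← ei, ← ej]
      exact h5 l
    · exfalso
      have ej : θ j = Ψ ⟨j.1 - (b + 1), by have := j.2; omega⟩ := dif_neg hj
      have h6 := h5 0
      rw [ei, ej, h1, h3, image_singleton] at h6
      exact hne h hh (singleton_injective h6)
  · have ei : θ i = Ψ ⟨i.1 - (b + 1), by have := i.2; omega⟩ := dif_neg hi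
    by_cases hj : j.1 < b + 1
    · exfalso
      have ej : θ j = Φ ⟨j.1, hj⟩ := dif_pos hj
      have h6 := h5 0
      rw [ei, ej, h1, h3, image_singleton] at h6
      exact hne' h hh (singleton_injective h6)
    · exfalso
      have ej : θ j = Ψ ⟨j.1 - (b + 1), by have := j.2; omega⟩ := dif_neg hj
      have hne2 : (⟨i.1 - (b + 1), by have := i.2; omega⟩ : Fin (a + 1)) ≠
          ⟨j.1 - (b + 1), by have := j.2; omega⟩ := fun e => hij (Fin.ext (by
            have := congrArg Fin.val e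
            simp only at this
            omega))
      obtain ⟨k, hk, hk'⟩ := down hm hOm hstw d _ _ _ _ (h3 _) (h3 _) (h4 _) (h4 _)
        ⟨h, hh, fun l => by
          have := h5 l
          rw [ei, ej] at this
          exact this⟩
      obtain ⟨l, hl⟩ := hΨ' _ _ hne2 k hk
      exact hl (hk' l)

end Pool.Agent.T9h22.NK
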