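import Pool.Agent.T9h44.NK.SpecA

/-!
# Project NK, piece IOTA: an isometry onto the orthogonal complement of a vector
-/

set_option autoImplicit false

open Set
open scoped RealInnerProductSpace

namespace Pool.Agent.T9h22.NK

open Pool.Agent.T9h98.DC Pool.Agent.T9h44.NK

theorem iota : S_IOTA := by
  intro d n hn
  have : Fact (Module.finrank ℝ (E (d + 1)) = d + 1) := ⟨by simp [E]⟩
  let b := OrthonormalBasis.fromOrthogonalSpanSingleton (𝕜 := ℝ) d hn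
  let ι : E d →ₗᵢ[ℝ] E (d + 1) :=
    (Submodule.subtypeₗᵢ (ℝ ∙ n)ᗮ).comp b.repr.symm.toLinearIsometry
  refine ⟨ι, fun x => ?_, fun y hy => ?_⟩
  · have h : ((b.repr.symm x : (ℝ ∙ n)ᗮ) : E (d + 1)) ∈ (ℝ ∙ n)ᗮ := (b.repr.symm x).2
    exact Submodule.mem_orthogonal_singleton_iff_inner_right.mp h
  · have hy' : y ∈ (ℝ ∙ n)ᗮ := Submodule.mem_orthogonal_singleton_iff_inner_right.mpr hy
    refine ⟨b.repr ⟨y, hy'⟩, ?_⟩
    show ((b.repr.symm (b.repr ⟨y, hy'⟩) : (ℝ ∙ n)ᗮ) : E (d + 1)) = y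
    rw [b.repr.symm_apply_apply]

end Pool.Agent.T9h22.NK
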