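import Pool.Agent.T9h98.NK.SpecS

/-!
# Project NK, piece MC: adjacent vertices, the first of type C
-/

set_option autoImplicit false

open Set
open scoped RealInnerProductSpace

namespace Pool.Agent.T9h22.NK

open Pool.Agent.T9h98.DC Pool.Agent.T9h44.NK Pool.Agent.T9h98.NK

theorem core {V : Type*} [NormedAddCommGroup V] [InnerProductSpace ℝ V] {p q1 q2 r1 r2 : V}
    {c1 c2 b1 b2 : ℝ} (h1 : r1 = c1 • p + b1 • q1) (h2 : r2 = c2 • p + b2 • q2) :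
    ⟪r1, r2⟫ * ⟪p, p⟫ - ⟪r1, p⟫ * ⟪r2, p⟫ =
      b1 * b2 * (⟪q1, q2⟫ * ⟪p, p⟫ - ⟪q1, p⟫ * ⟪q2, p⟫) := by
  subst h1 h2
  simp only [inner_add_left, inner_add_right, real_inner_smul_left, real_inner_smul_right]
  rw [real_inner_comm q2 p]
  ring

theorem fin_calc {g g' h c1 c2 m1 m2 : ℝ} (hg : g < 1) (hg1 : -1 < g) (hc1 : 0 < c1)
    (hc2 : 0 < c2) (hm1 : 0 < m1) (hm2 : 0 < m2)
    (e1 : c1 ^ 2 * (1 - g' ^ 2) = m1 ^ 2 * (1 - g ^ 2))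
    (e2 : c2 ^ 2 * (1 - g' ^ 2) = m2 ^ 2 * (1 - g ^ 2))
    (e3 : (h - g' ^ 2) * (c1 * c2) = -(m1 * m2 * (1 - g) ^ 2)) :
    0 < 1 - g' ^ 2 ∧ (h - g' ^ 2) * (1 + g) = -((1 - g) * (1 - g' ^ 2)) := by
  have k1 : 0 < 1 - g ^ 2 := by nlinarith
  have k2 : 0 < 1 - g' ^ 2 := by
    have h1 : 0 < c1 ^ 2 * (1 - g' ^ 2) := by
      rw [e1]
      positivity
    exact (pos_iff_pos_of_mul_pos h1).mp (by positivity)
  refine ⟨k2, ?_⟩
  have k3 : (c1 * c2 * (1 - g' ^ 2)) ^ 2 = (m1 * m2 * (1 - g ^ 2)) ^ 2 := by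
    calc (c1 * c2 * (1 - g' ^ 2)) ^ 2 = (c1 ^ 2 * (1 - g' ^ 2)) * (c2 ^ 2 * (1 - g' ^ 2)) := by
          ring
      _ = (m1 * m2 * (1 - g ^ 2)) ^ 2 := by
          rw [e1, e2]
          ring
  have k4 : c1 * c2 * (1 - g' ^ 2) = m1 * m2 * (1 - g ^ 2) :=
    (sq_eq_sq₀ (by positivity) (by positivity)).mp k3
  have k5 : m1 * m2 * (1 - g) ≠ 0 := by
    have : 0 < 1 - g := by linarith
    positivity
  apply mul_right_cancel₀ k5
  calc (h - g' ^ 2) * (1 + g) * (m1 * m2 * (1 - g)) =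
        (h - g' ^ 2) * (m1 * m2 * (1 - g ^ 2)) := by ring
    _ = (h - g' ^ 2) * (c1 * c2) * (1 - g' ^ 2) := by
        rw [← k4]
        ring
    _ = -((1 - g) * (1 - g' ^ 2)) * (m1 * m2 * (1 - g)) := by
        rw [e3]
        ring

/-- The situation at a vertex `v` of type C with a neighbour `w`. -/
theorem situ (hE : S_EDGE) {D : ℕ} {P : Set (E (D + 1))} (hD : 3 ≤ D) (hP : IsPolytope P)
    {v w : E (D + 1)} (hvw : Adj P v w) {g : ℝ} (hC : LocC P v g) :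
    ∃ z1 z2 : E (D + 1), z1 ≠ z2 ∧ Cor P w v z1 ∧ Cor P w v z2 ∧
      ∀ g' h : ℝ, ⟪v - w, z1 - w⟫ = g' * (‖v - w‖ * ‖z1 - w‖) →
        ⟪v - w, z2 - w⟫ = g' * (‖v - w‖ * ‖z2 - w‖) →
        ⟪z1 - w, z2 - w⟫ = h * (‖z1 - w‖ * ‖z2 - w‖) →
        0 < 1 - g' ^ 2 ∧ (h - g' ^ 2) * (1 + g) = -((1 - g) * (1 - g' ^ 2)) := by
  obtain ⟨y1, y2, hy, hc1, hc2⟩ := hC.two w hvw
  obtain ⟨z1, hz1, ⟨α1, β1, -, hβ1, hz1e⟩, -⟩ := hE D P hP v w y1 hc1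
  obtain ⟨z2, hz2, ⟨α2, β2, -, hβ2, hz2e⟩, -⟩ := hE D P hP v w y2 hc2
  have hg := hC.glt
  have hg1 : -1 < g := by
    have h1 := hC.ggt
    have h2 : (2 : ℝ) / D ≤ 2 / 3 := by
      apply div_le_div_of_nonneg_left (by norm_num) (by norm_num)
      exact_mod_cast hD
    linarith
  have hπ : 0 < ‖w - v‖ := norm_pos_iff.mpr (sub_ne_zero.mpr hvw.1.symm)
  have ha1 : 0 < ‖y1 - v‖ := norm_pos_iff.mpr (sub_ne_zero.mpr hc1.2.1.1.symm)
  have ha2 : 0 < ‖y2 - v‖ := norm_pos_iff.mpr (sub_ne_zero.mpr hc2.2.1.1.symm)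
  have hb1 : 0 < ‖z1 - w‖ := norm_pos_iff.mpr (sub_ne_zero.mpr hz1.2.1.1.symm)
  have hb2 : 0 < ‖z2 - w‖ := norm_pos_iff.mpr (sub_ne_zero.mpr hz2.2.1.1.symm)
  have hr1 : z1 - w = (α1 - 1) • (w - v) + β1 • (y1 - v) := by
    have : z1 - w = (z1 - v) - (w - v) := by abel
    rw [this, hz1e, sub_smul, one_smul]
    abel
  have hr2 : z2 - w = (α2 - 1) • (w - v) + β2 • (y2 - v) := by
    have : z2 - w = (z2 - v) - (w - v) := by abel
    rw [this, hz2e, sub_smul, one_smul]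
    abel
  have i1 : ⟪y1 - v, w - v⟫ = g * (‖w - v‖ * ‖y1 - v‖) := by
    rw [real_inner_comm]
    exact hC.cor _ _ hc1
  have i2 : ⟪y2 - v, w - v⟫ = g * (‖w - v‖ * ‖y2 - v‖) := by
    rw [real_inner_comm]
    exact hC.cor _ _ hc2
  have i3 : ⟪y1 - v, y2 - v⟫ = (2 * g - 1) * (‖y1 - v‖ * ‖y2 - v‖) := hC.cor2 _ _ _ hc1 hc2 hy
  have g11 := core hr1 hr1
  have g22 := core hr2 hr2
  have g12 := core hr1 hr2
  rw [i1, real_inner_self_eq_norm_sq (y1 - v), real_inner_self_eq_norm_sq (w - v)] at g11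
  rw [i2, real_inner_self_eq_norm_sq (y2 - v), real_inner_self_eq_norm_sq (w - v)] at g22
  rw [i1, i2, i3, real_inner_self_eq_norm_sq (w - v)] at g12
  have hne : z1 ≠ z2 := by
    intro h
    subst h
    have k1 : 0 < 1 - g ^ 2 := by nlinarith
    have k0 : 0 < 1 - g := by linarith
    have h1 : 0 < β1 * β1 * (‖y1 - v‖ ^ 2 * ‖w - v‖ ^ 2 -
        g * (‖w - v‖ * ‖y1 - v‖) * (g * (‖w - v‖ * ‖y1 - v‖))) := by
      have e : β1 * β1 * (‖y1 - v‖ ^ 2 * ‖w - v‖ ^ 2 -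
          g * (‖w - v‖ * ‖y1 - v‖) * (g * (‖w - v‖ * ‖y1 - v‖))) =
          β1 * β1 * (‖y1 - v‖ ^ 2 * ‖w - v‖ ^ 2 * (1 - g ^ 2)) := by ring
      rw [e]
      positivity
    have h2 : 0 < β1 * β2 * (‖y1 - v‖ * ‖y2 - v‖ * ‖w - v‖ ^ 2 * (1 - g) ^ 2) := by positivity
    have h3 : β1 * β2 * ((2 * g - 1) * (‖y1 - v‖ * ‖y2 - v‖) * ‖w - v‖ ^ 2 -
        g * (‖w - v‖ * ‖y1 - v‖) * (g * (‖w - v‖ * ‖y2 - v‖))) =
        -(β1 * β2 * (‖y1 - v‖ * ‖y2 - v‖ * ‖w - v‖ ^ 2 * (1 - g) ^ 2)) := by ring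
    rw [h3] at g12
    linarith
  refine ⟨z1, z2, hne, hz1, hz2, fun g' h j1 j2 j3 => ?_⟩
  have hvw' : v - w = -(w - v) := by abel
  have l1 : ⟪z1 - w, w - v⟫ = -(g' * (‖w - v‖ * ‖z1 - w‖)) := by
    rw [hvw', inner_neg_left, norm_neg] at j1
    rw [real_inner_comm]
    linarith
  have l2 : ⟪z2 - w, w - v⟫ = -(g' * (‖w - v‖ * ‖z2 - w‖)) := by
    rw [hvw', inner_neg_left, norm_neg] at j2
    rw [real_inner_comm]
    linarith
  rw [l1, real_inner_self_eq_norm_sq] at g11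
  rw [l2, real_inner_self_eq_norm_sq] at g22
  rw [l1, l2, j3] at g12
  have hπ2 : ‖w - v‖ ^ 2 ≠ 0 := by positivity
  apply fin_calc hg hg1 hb1 hb2 (mul_pos hβ1 ha1) (mul_pos hβ2 ha2)
  · apply mul_right_cancel₀ hπ2
    linear_combination g11
  · apply mul_right_cancel₀ hπ2
    linear_combination g22
  · apply mul_right_cancel₀ hπ2
    linear_combination g12

theorem mc (hE : S_EDGE) : S_MC := by
  intro D P hD hP v w hvw g e g'
  constructor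
  · intro hC hS
    obtain ⟨z1, z2, hne, hz1, hz2, hs⟩ := situ hE hD hP hvw hC
    have n0 : ‖v - w‖ = e := hS.len v hz1.1
    have n1 : ‖z1 - w‖ = e := hS.len z1 hz1.2.1
    have n2 : ‖z2 - w‖ = e := hS.len z2 hz2.2.1
    have m1 := (hS.cor v z1 hz1.1 hz1.2.1 hz1.2.2.1).2
    have m2 := (hS.cor v z2 hz2.1 hz2.2.1 hz2.2.2.1).2
    have m3 := (hS.cor z1 z2 hz1.2.1 hz2.2.1 hne).2
    obtain ⟨h1, h2⟩ := hs g' g' (by rw [m1, n0, n1]; ring) (by rw [m2, n0, n2]; ring)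
      (by rw [m3, n1, n2]; ring)
    have h3 : (1 - g') ≠ 0 := by
      intro h
      have : g' = 1 := by linarith
      rw [this] at h1
      norm_num at h1
    have h4 : (g' * (1 + g)) * (1 - g') = (-((1 - g) * (1 + g'))) * (1 - g') := by
      linear_combination h2
    have h5 := mul_right_cancel₀ h3 h4
    linarith
  · intro hC hC'
    obtain ⟨z1, z2, hne, hz1, hz2, hs⟩ := situ hE hD hP hvw hC
    have m1 := hC'.cor v z1 hz1
    have m2 := hC'.cor v z2 hz2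
    have m3 := hC'.cor2 v z1 z2 hz1 hz2 hne
    obtain ⟨h1, h2⟩ := hs g' (2 * g' - 1) m1 m2 m3
    have h3 : (1 - g') ≠ 0 := by
      intro h
      have : g' = 1 := by linarith
      rw [this] at h1
      norm_num at h1
    have h4 : ((1 - g') * (1 + g)) * (1 - g') = ((1 - g) * (1 + g')) * (1 - g') := by
      linear_combination -h2
    have h5 := mul_right_cancel₀ h3 h4
    linarith

end Pool.Agent.T9h22.NK
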